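import Pool.Agent.H22.Gab4

/-! Non-frame Hermite Gabor systems of density `2n+1 > n+1`, for every `n ≥ 1`. -/

namespace Pool.Agent.Results.MP_bef260_an.NonFrame

open MeasureTheory Set Filter Topology Complex
open scoped Real ComplexConjugate ENNReal
open Pool.Agent.H22.Gab

/-- The Hermite function `h_n`. -/
noncomputable def hermiteFn (n : ℕ) (t : ℝ) : ℝ :=
  (-1) ^ n * ((2 : ℝ) ^ (1 / 4 : ℝ) / √(n.factorial * (2 * π) ^ n * 2 ^ n)) *
    Real.exp (π * t ^ 2) * iteratedDeriv n (fun s : ℝ => Real.exp (-2 * π * s ^ 2)) t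

/-- The time-frequency shift `π(z) g = M_ω T_x g` for `z = (x, ω)`. -/
noncomputable def tfShift (z : ℝ × ℝ) (g : ℝ → ℂ) (t : ℝ) : ℂ :=
  cexp (2 * π * I * z.2 * t) * g (t - z.1)

/-- `∑_{γ ∈ Γ} |⟨f, π(γ) g⟩|²`, in `[0, ∞]`. -/
noncomputable def frameSum (g : ℝ → ℂ) (Γ : Set (ℝ × ℝ)) (f : ℝ → ℂ) : ℝ≥0∞ :=
  ∑' γ : Γ, ENNReal.ofReal (‖∫ t, f t * conj (tfShift γ g t)‖ ^ 2)

/-- The Gabor system of `g` over `Γ` is a frame for `L²(ℝ)`. -/
def IsFrame (g : ℝ → ℂ) (Γ : Set (ℝ × ℝ)) : Prop :=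
  ∃ A B : ℝ, 0 < A ∧ A ≤ B ∧ ∀ f : ℝ → ℂ, MemLp f 2 →
    ENNReal.ofReal (A * ∫ t, ‖f t‖ ^ 2) ≤ frameSum g Γ f ∧
      frameSum g Γ f ≤ ENNReal.ofReal (B * ∫ t, ‖f t‖ ^ 2)

/-- `Γ` is separated (Euclidean distance). -/
def Separated (Γ : Set (ℝ × ℝ)) : Prop :=
  ∃ δ > 0, ∀ γ ∈ Γ, ∀ γ' ∈ Γ, γ ≠ γ' → δ ≤ √((γ.1 - γ'.1) ^ 2 + (γ.2 - γ'.2) ^ 2)

/-- Lower Beurling density: `liminf_{R → ∞} inf_z #(Γ ∩ (z + [0,R]²)) / R²`. -/
noncomputable def lowerDensity (Γ : Set (ℝ × ℝ)) : ℝ≥0∞ :=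
  liminf (fun R : ℝ => ⨅ z : ℝ × ℝ,
    ((Γ ∩ Icc z.1 (z.1 + R) ×ˢ Icc z.2 (z.2 + R)).encard : ℝ≥0∞) / ENNReal.ofReal (R ^ 2)) atTop

lemma sep1 {a : ℝ} (ha : 0 < a) (c : ℝ) :
    ∀ᶠ δ in 𝓝[>] (0 : ℝ), ∀ j : ℤ, c + a * j ≠ 0 → δ ≤ |c + a * j| := by
  by_cases h : ∃ j : ℤ, c + a * j ≠ 0 ∧ |c + a * j| < a / 2
  · obtain ⟨j0, h0, h1⟩ := h
    filter_upwards [Ioo_mem_nhdsGT (abs_pos.mpr h0)] with δ hδ j _
    by_cases hj : j = j0
    · exact hj ▸ hδ.2.le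
    · have h2 : (1 : ℝ) ≤ |((j - j0 : ℤ) : ℝ)| := by
        exact_mod_cast Int.one_le_abs (sub_ne_zero.mpr hj)
      have h3 := abs_sub (c + a * j) (c + a * j0)
      have h4 : c + a * j - (c + a * j0) = a * ((j - j0 : ℤ) : ℝ) := by push_cast; ring
      rw [h4, abs_mul, abs_of_pos ha] at h3
      nlinarith [hδ.2]
  · push Not at h
    filter_upwards [Ioo_mem_nhdsGT (half_pos ha)] with δ hδ j hj
    exact hδ.2.le.trans (h j hj)

lemma sep {a : ℝ} (ha : 0 < a) (P : Finset (ℝ × ℝ)) : Separated (conf a P) := by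
  have h01 : ∀ᶠ ρ in 𝓝[>] (0 : ℝ), 0 < ρ := self_mem_nhdsWithin
  obtain ⟨δ, h0, h⟩ := (h01.and ((eventually_all_finset P).mpr fun p _ =>
    (eventually_all_finset P).mpr fun q _ =>
      (sep1 ha (p.1 - q.1)).and (sep1 (inv_pos.mpr ha) (p.2 - q.2)))).exists
  refine ⟨δ, h0, ?_⟩
  rintro _ ⟨p, hp, j, l, rfl⟩ _ ⟨q, hq, j', l', rfl⟩ hne
  have e1 : p.1 + a * j - (q.1 + a * j') = p.1 - q.1 + a * ((j - j' : ℤ) : ℝ) := by
    push_cast; ring
  have e2 : p.2 + l / a - (q.2 + l' / a) = p.2 - q.2 + a⁻¹ * ((l - l' : ℤ) : ℝ) := by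
    push_cast; ring
  by_cases h1 : p.1 + a * j = q.1 + a * j'
  · have h2 : p.2 + l / a ≠ q.2 + l' / a := fun h2 => hne (Prod.ext h1 h2)
    have := (h p hp q hq).2 (l - l') (e2 ▸ sub_ne_zero.mpr h2)
    rw [← e2] at this
    exact this.trans (Real.abs_le_sqrt (le_add_of_nonneg_left (sq_nonneg _)))
  · have := (h p hp q hq).1 (j - j') (e1 ▸ sub_ne_zero.mpr h1)
    rw [← e1] at this
    exact this.trans (Real.abs_le_sqrt (le_add_of_nonneg_right (sq_nonneg _)))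

lemma cnt {a : ℝ} (ha : 0 < a) (P : Finset (ℝ × ℝ))
    (hP : ∀ p ∈ P, ∀ q ∈ P, ∀ j l : ℤ, (p.1 + a * j, p.2 + l / a) = q → p = q) {R : ℝ}
    (hR : 0 ≤ R) (z : ℝ × ℝ) : ((P.card * ⌊R / a⌋₊ * ⌊R * a⌋₊ : ℕ) : ℕ∞) ≤
      (conf a P ∩ Icc z.1 (z.1 + R) ×ˢ Icc z.2 (z.2 + R)).encard := by
  let ψ : (P × Fin ⌊R / a⌋₊) × Fin ⌊R * a⌋₊ → ℝ × ℝ := fun q =>
    (q.1.1.1.1 + a * ((⌈(z.1 - q.1.1.1.1) / a⌉ + (q.1.2 : ℕ) : ℤ) : ℝ),
      q.1.1.1.2 + ((⌈(z.2 - q.1.1.1.2) * a⌉ + (q.2 : ℕ) : ℤ) : ℝ) / a)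
  have hi : Function.Injective ψ := by
    rintro ⟨⟨⟨p, hp⟩, i⟩, k⟩ ⟨⟨⟨q, hq⟩, i'⟩, k'⟩ h
    simp only [ψ, Prod.mk.injEq] at h
    obtain rfl : p = q := by
      refine hP p hp q hq ((⌈(z.1 - p.1) / a⌉ + (i : ℕ)) - (⌈(z.1 - q.1) / a⌉ + (i' : ℕ)))
        ((⌈(z.2 - p.2) * a⌉ + (k : ℕ)) - (⌈(z.2 - q.2) * a⌉ + (k' : ℕ))) (Prod.ext ?_ ?_)
      · simp only [Int.cast_sub, mul_sub]; linarith [h.1]
      · simp only [Int.cast_sub, sub_div]; linarith [h.2]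
    have h1 := Int.cast_injective (mul_left_cancel₀ ha.ne' (add_left_cancel h.1))
    have h2 := Int.cast_injective ((div_left_inj' ha.ne').mp (add_left_cancel h.2))
    obtain rfl : i = i' := Fin.ext (by omega)
    obtain rfl : k = k' := Fin.ext (by omega)
    rfl
  have hr : range ψ ⊆ conf a P ∩ Icc z.1 (z.1 + R) ×ˢ Icc z.2 (z.2 + R) := by
    rintro _ ⟨⟨⟨⟨p, hp⟩, i⟩, k⟩, rfl⟩
    refine ⟨⟨p, hp, _, _, rfl⟩, ?_⟩
    have a1 := Int.le_ceil ((z.1 - p.1) / a)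
    have a2 := Int.ceil_lt_add_one ((z.1 - p.1) / a)
    have b1 := Int.le_ceil ((z.2 - p.2) * a)
    have b2 := Int.ceil_lt_add_one ((z.2 - p.2) * a)
    have c1 : ((i : ℕ) : ℝ) + 1 ≤ R / a :=
      le_trans (by exact_mod_cast i.2) (Nat.floor_le (by positivity))
    have c2 : ((k : ℕ) : ℝ) + 1 ≤ R * a :=
      le_trans (by exact_mod_cast k.2) (Nat.floor_le (by positivity))
    have c3 : (0 : ℝ) ≤ (i : ℕ) := Nat.cast_nonneg _
    have c4 : (0 : ℝ) ≤ (k : ℕ) := Nat.cast_nonneg _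
    have d1 : a * ((z.1 - p.1) / a) = z.1 - p.1 := by field_simp
    have d2 : a * (R / a) = R := by field_simp
    simp only [ψ, mem_prod, mem_Icc, Int.cast_add, Int.cast_natCast]
    refine ⟨⟨by nlinarith, by nlinarith⟩, ?_, ?_⟩
    · rw [← sub_le_iff_le_add', le_div_iff₀ ha]; linarith
    · rw [← le_sub_iff_add_le', div_le_iff₀ ha]; linarith
  refine le_of_eq_of_le ?_ (hi.encard_range.trans (encard_le_encard hr))
  simp

lemma dens {a : ℝ} (ha : 0 < a) (P : Finset (ℝ × ℝ))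
    (hP : ∀ p ∈ P, ∀ q ∈ P, ∀ j l : ℤ, (p.1 + a * j, p.2 + l / a) = q → p = q) :
    (P.card : ℝ≥0∞) ≤ lowerDensity (conf a P) := by
  have hl : Tendsto (fun R : ℝ => ENNReal.ofReal (P.card * (a⁻¹ - R⁻¹) * (a - R⁻¹))) atTop
      (𝓝 (P.card : ℝ≥0∞)) := by
    have := ENNReal.tendsto_ofReal (((tendsto_inv_atTop_zero.const_sub a⁻¹).const_mul
      (P.card : ℝ)).mul (tendsto_inv_atTop_zero.const_sub a))
    simpa [mul_assoc, ha.ne'] using this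
  rw [← hl.liminf_eq]
  refine liminf_le_liminf ?_
  filter_upwards [eventually_ge_atTop a, eventually_ge_atTop a⁻¹] with R h1 h2
  have hR : 0 < R := ha.trans_le h1
  refine le_iInf fun z => ?_
  refine le_trans ?_ (ENNReal.div_le_div_right (ENat.toENNReal_le.mpr (cnt ha P hP hR.le z)) _)
  rw [ENat.toENNReal_coe, ← ENNReal.ofReal_natCast, ← ENNReal.ofReal_div_of_pos (by positivity)]
  refine ENNReal.ofReal_le_ofReal ?_
  rw [le_div_iff₀ (by positivity)]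
  have e : P.card * (a⁻¹ - R⁻¹) * (a - R⁻¹) * R ^ 2 = P.card * (R / a - 1) * (R * a - 1) := by
    field_simp
  rw [e]
  push_cast
  have h3 : 0 ≤ R * a - 1 := by
    have := mul_le_mul_of_nonneg_right h2 ha.le
    rw [inv_mul_cancel₀ ha.ne'] at this
    linarith
  exact mul_le_mul (mul_le_mul_of_nonneg_left (Nat.sub_one_lt_floor _).le (Nat.cast_nonneg _))
    (Nat.sub_one_lt_floor _).le h3 (by positivity)

lemma chi_half {a : ℝ} (ha : 0 < a) (k : ℤ) : chi a (1 / (2 * a)) k = (Real.cos (π * k) : ℂ) := by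
  have ha' : (a : ℂ) ≠ 0 := by exact_mod_cast ha.ne'
  have : -(2 * π * I * a * ((1 / (2 * a) : ℝ) : ℂ) * k) = ((-(π * k) : ℝ) : ℂ) * I := by
    push_cast; field_simp
  rw [chi, this, exp_mul_I, ← ofReal_cos, ← ofReal_sin, Real.cos_neg, Real.sin_neg, mul_comm π,
    Real.sin_int_mul_pi]
  simp

lemma points (n : ℕ) : ∃ a : ℝ, 2 ≤ a ∧ ∃ P : Finset (ℝ × ℝ), P.card = 2 * n + 1 ∧
    (∀ p ∈ P, (-(a / 2) < p.1 ∧ p.1 ≤ a / 2) ∧ (p.2 = 0 ∨ p.2 = 1 / (2 * a))) ∧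
    ∀ A > 0, ∃ f : ℝ → ℂ, MemLp f 2 ∧
      ∑' γ : conf a P, ENNReal.ofReal (‖coef (hermiteFn n) f γ‖ ^ 2) <
        ENNReal.ofReal (A * ∫ t, ‖f t‖ ^ 2) := by
  classical
  set c : ℝ := (2 : ℝ) ^ (1 / 4 : ℝ) / √(n.factorial * (2 * π) ^ n * 2 ^ n) with hc
  have hc0 : 0 < c := by positivity
  have hG : ∀ t, hermiteFn n t = (-1) ^ n * c * Real.exp (π * t ^ 2) * G n t := fun t => rfl
  obtain ⟨p, hp⟩ := G_poly n
  have hp' : hermiteFn n =
      fun t => (Polynomial.C ((-1) ^ n * c) * p).eval t * Real.exp (-π * t ^ 2) := by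
    ext t
    have : Real.exp (-π * t ^ 2) = Real.exp (π * t ^ 2) * Real.exp (-2 * π * t ^ 2) := by
      rw [← Real.exp_add]; congr 1; ring
    rw [hG, hp, this, Polynomial.eval_mul, Polynomial.eval_C]; ring
  have hg : Continuous (hermiteFn n) := by rw [hp']; fun_prop
  obtain ⟨C, hC⟩ := poly_bound (Polynomial.C ((-1) ^ n * c) * p) Real.pi_pos
  replace hC : ∀ t, |hermiteFn n t| ≤ C * Real.exp (-|t|) := fun t => by rw [hp']; exact hC t
  have hpar : ∀ t, hermiteFn n (-t) = (-1) ^ n * hermiteFn n t := fun t => by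
    rw [hG, hG, G_neg, neg_sq]; ring
  obtain ⟨t, h1, h2⟩ := G_alt n
  obtain ⟨a, ha, hta, hz⟩ := zeros hg hC (σ := (-1) ^ n) h1 fun i hi => by
    have e : (-1 : ℝ) ^ n * (-1) ^ i * hermiteFn n (t i) =
        ((-1) ^ n) ^ 2 * c * Real.exp (π * t i ^ 2) * ((-1) ^ i * G n (t i)) := by
      rw [hG]; ring
    have := h2 i hi
    rw [e]; positivity
  have ha0 : 0 < a := by linarith
  obtain ⟨z, hz1⟩ := hz (fun _ => 1) (by simp) rfl
  obtain ⟨w, hw1⟩ := hz (fun k => Real.cos (π * k)) (fun _ => Real.abs_cos_le_one _) (by simp)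
  have inj : ∀ (y : ℕ → ℝ) (ω : ℝ), (∀ i < n, t i < y i ∧ y i < t (i + 1)) →
      ((Finset.range n).image fun i => (-y i, ω)).card = n ∧
      ∀ i < n, -(a / 2) < -y i ∧ -y i < a / 2 := by
    intro y ω hy
    have hm : ∀ i < n, ∀ j < n, i < j → y i < y j := by
      intro i hi j hj hij
      refine (hy i hi).2.trans_le (le_trans ?_ (hy j hj).1.le)
      rcases Nat.lt_or_ge (i + 1) j with h | h
      · exact (mono h1 j hj.le _ h).le
      · rw [show j = i + 1 by omega]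
    constructor
    · rw [Finset.card_image_of_injOn, Finset.card_range]
      intro i hi j hj h
      simp only [Finset.coe_range, mem_Iio, Prod.mk.injEq, neg_inj, and_true] at hi hj h
      rcases lt_trichotomy i j with h' | h' | h'
      · exact absurd h (hm i hi j hj h').ne
      · exact h'
      · exact absurd h (hm j hj i hi h').ne'
    · intro i hi
      have := abs_lt.mp (hta i hi.le)
      have := abs_lt.mp (hta (i + 1) hi)
      constructor <;> linarith [hy i hi]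
  obtain ⟨cz, bz⟩ := inj z 0 fun i hi => ⟨(hz1 i hi).1, (hz1 i hi).2.1⟩
  obtain ⟨cw, bw⟩ := inj w (1 / (2 * a)) fun i hi => ⟨(hw1 i hi).1, (hw1 i hi).2.1⟩
  have hne : (0 : ℝ) ≠ 1 / (2 * a) := by positivity
  have chi0 : ∀ k, chi a 0 k = ((1 : ℝ) : ℂ) := fun k => by simp [chi]
  obtain ⟨ω, hω, hω'⟩ : ∃ ω : ℝ, (ω = 0 ∨ ω = 1 / (2 * a)) ∧
      ∑' i : ℤ, chi a ω i * (hermiteFn n (a * i - a / 2) : ℂ) = 0 := by
    have key : ∀ s : ℤ → ℝ, (∀ k, s (1 - k) * (-1) ^ n = -s k) →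
        ∑' i : ℤ, (s i : ℂ) * (hermiteFn n (a * i - a / 2) : ℂ) = 0 := by
      intro s hs
      have e := (Equiv.subLeft (1 : ℤ)).tsum_eq
        fun i => (s i : ℂ) * (hermiteFn n (a * i - a / 2) : ℂ)
      have e' : ∀ i : ℤ, (s (1 - i) : ℂ) * (hermiteFn n (a * ((1 - i : ℤ) : ℝ) - a / 2) : ℂ) =
          -((s i : ℂ) * (hermiteFn n (a * i - a / 2) : ℂ)) := by
        intro i
        rw [show a * ((1 - i : ℤ) : ℝ) - a / 2 = -(a * i - a / 2) by push_cast; ring, hpar,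
          ← ofReal_mul, ← mul_assoc, hs]
        push_cast; ring
      simp only [Equiv.subLeft_apply, e', tsum_neg] at e
      exact self_eq_neg.mp e.symm
    rcases neg_one_pow_eq_or ℝ n with h | h
    · refine ⟨_, Or.inr rfl, ?_⟩
      simp only [chi_half ha0]
      refine key _ fun k => ?_
      rw [h, mul_one, ← Real.cos_pi_sub]; congr 1; push_cast; ring
    · refine ⟨_, Or.inl rfl, ?_⟩
      simp only [chi0]
      exact key (fun _ => 1) fun k => by rw [h]; simp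
  refine ⟨a, ha, insert (a / 2, ω) (((Finset.range n).image fun i => (-z i, (0 : ℝ))) ∪
    (Finset.range n).image fun i => (-w i, 1 / (2 * a))), ?_, ?_, fun A hA => ?_⟩
  · rw [Finset.card_insert_of_notMem, Finset.card_union_of_disjoint, cz, cw]
    · ring
    · rw [Finset.disjoint_left]
      simp only [Finset.mem_image]
      rintro _ ⟨i, -, rfl⟩ ⟨j, -, h⟩
      exact hne (Prod.mk.inj h).2.symm
    · simp only [Finset.mem_union, Finset.mem_image, Finset.mem_range, Prod.mk.injEq]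
      rintro (⟨i, hi, h, -⟩ | ⟨i, hi, h, -⟩)
      · exact (bz i hi).2.ne h
      · exact (bw i hi).2.ne h
  · simp only [Finset.mem_insert, Finset.mem_union, Finset.mem_image, Finset.mem_range]
    rintro _ (rfl | ⟨i, hi, rfl⟩ | ⟨i, hi, rfl⟩)
    · exact ⟨⟨by simp only; linarith, le_rfl⟩, hω⟩
    · exact ⟨⟨(bz i hi).1, (bz i hi).2.le⟩, Or.inl rfl⟩
    · exact ⟨⟨(bw i hi).1, (bw i hi).2.le⟩, Or.inr rfl⟩
  · refine nonframe hg hC ha _ ?_ hA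
    simp only [Finset.mem_insert, Finset.mem_union, Finset.mem_image, Finset.mem_range]
    rintro _ (rfl | ⟨i, hi, rfl⟩ | ⟨i, hi, rfl⟩)
    · exact hω'
    · simp only [chi0, ← ofReal_mul, ← ofReal_tsum, sub_neg_eq_add, add_comm _ (z i),
        (hz1 i hi).2.2, ofReal_zero]
    · simp only [chi_half ha0, ← ofReal_mul, ← ofReal_tsum, sub_neg_eq_add, add_comm _ (w i),
        (hw1 i hi).2.2, ofReal_zero]

theorem result (n : ℕ) (hn : 1 ≤ n) :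
    ∃ Γ : Set (ℝ × ℝ), Separated Γ ∧ (n + 1 : ℝ≥0∞) < lowerDensity Γ ∧
      ¬ IsFrame (fun t => (hermiteFn n t : ℂ)) Γ ∧
      (2 * n + 1 : ℝ≥0∞) ≤ lowerDensity Γ ∧
      ∃ a : ℝ, 0 < a ∧ ∃ P : Finset (ℝ × ℝ), P.card = 2 * n + 1 ∧
        (∀ p ∈ P, ∀ q ∈ P, ∀ j l : ℤ, (p.1 + a * j, p.2 + l / a) = q → p = q) ∧
        Γ = {γ | ∃ p ∈ P, ∃ j l : ℤ, γ = (p.1 + a * j, p.2 + l / a)} := by
  obtain ⟨a, ha, P, hP, hb, hf⟩ := points n
  have ha0 : 0 < a := by linarith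
  have hc : ∀ p ∈ P, ∀ q ∈ P, ∀ j l : ℤ, (p.1 + a * j, p.2 + l / a) = q → p = q := by
    intro p hp q hq j l h
    obtain ⟨⟨p1, p2⟩, p3⟩ := hb p hp
    obtain ⟨⟨q1, q2⟩, q3⟩ := hb q hq
    have e1 : p.1 + a * j = q.1 := congrArg Prod.fst h
    have e2 : p.2 + l / a = q.2 := congrArg Prod.snd h
    have e3 : (l : ℝ) = (q.2 - p.2) * a := by rw [← e2]; field_simp; ring
    have e4 : 1 / (2 * a) * a = 1 / 2 := by field_simp
    obtain rfl : j = 0 := by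
      have : |(j : ℝ)| < 1 := abs_lt.mpr ⟨by nlinarith, by nlinarith⟩
      exact Int.abs_lt_one_iff.mp (by exact_mod_cast this)
    obtain rfl : l = 0 := by
      have : |(l : ℝ)| < 1 := by
        rw [e3, abs_lt]
        rcases p3 with p3 | p3 <;> rcases q3 with q3 | q3 <;> rw [p3, q3] <;>
          constructor <;> nlinarith
      exact Int.abs_lt_one_iff.mp (by exact_mod_cast this)
    simpa using h
  have hd := dens ha0 P hc
  rw [hP] at hd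
  refine ⟨conf a P, sep ha0 P, lt_of_lt_of_le ?_ hd, ?_, by exact_mod_cast hd, a, ha0, P, hP,
    hc, rfl⟩
  · exact_mod_cast (by omega : n + 1 < 2 * n + 1)
  · rintro ⟨A, B, hA, -, h⟩
    obtain ⟨f, hf1, hf2⟩ := hf A hA
    exact absurd (h f hf1).1 (not_le.mpr hf2)

end Pool.Agent.Results.MP_bef260_an.NonFrame
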